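import Mathlib.Algebra.Category.ModuleCat.Basic
import Mathlib.Topology.Category.TopCommRingCat
import Mathlib.Combinatorics.Quiver.ReflQuiver
import Mathlib.NumberTheory.Cyclotomic.CyclotomicCharacter
import Mathlib.RingTheory.SimpleRing.Principal
import Mathlib.NumberTheory.ModularForms.QExpansion
import Mathlib.Order.CompletePartialOrder
import Mathlib.RingTheory.Valuation.RamificationGroup
import Mathlib.Tactic.Polynomial.Basic

/-!
# MP_59efd2_nt : the definitions used in the statements handed in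

Cyclotomic Iwasawa cohomology of a rank two lattice over `ℤ_[p]`, as continuous cohomology of
`T ⊗ Λ^ι` (Shapiro form), the Selmer group with relaxed condition at `p`, their localisations
at `p`, and the modular side.
-/

noncomputable section

namespace Pool.Agent.MP_59efd2_nt

open scoped MatrixGroups

set_option linter.unusedSectionVars false

/-- The place `V` of the algebraic closure of `ℚ` lies above the prime `l`. -/
def Above (V : ValuationSubring (AlgebraicClosure ℚ)) (l : ℕ) : Prop :=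
  V.valuation (l : AlgebraicClosure ℚ) < 1

/-- `g` is an arithmetic Frobenius element at the place `V` above `l`. -/
def IsFrob (V : ValuationSubring (AlgebraicClosure ℚ)) (l : ℕ) (g : Gal(AlgebraicClosure ℚ/ℚ)) :
    Prop :=
  g ∈ V.decompositionSubgroup ℚ ∧ ∀ x ∈ V, V.valuation (g x - x ^ l) < 1

section Cohomology

variable {R H M M' : Type} [CommRing R] [Group H] [TopologicalSpace H]
  [AddCommGroup M] [Module R M] [TopologicalSpace M] [IsTopologicalAddGroup M]
  [ContinuousAdd M] [ContinuousConstSMul R M]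
  [AddCommGroup M'] [Module R M'] [TopologicalSpace M'] [IsTopologicalAddGroup M']
  [ContinuousAdd M'] [ContinuousConstSMul R M']

/-- Continuous 1-cocycles of `H` acting on `M` through `A`. -/
def Cocyc (A : H → M →ₗ[R] M) : Submodule R C(H, M) where
  carrier := {c | ∀ g h, c (g * h) = c g + A g (c h)}
  add_mem' := fun {a b} ha hb g h => by
    simp only [ContinuousMap.add_apply, ha g h, hb g h, map_add]; abel
  zero_mem' := fun g h => by simp
  smul_mem' := fun r a ha g h => by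
    simp only [ContinuousMap.smul_apply, ha g h, map_smul, smul_add]

/-- The functions that are coboundaries `g ↦ g m - m` on the subset `I` of `H`. -/
def CobOn (A : H → M →ₗ[R] M) (I : Set H) : Submodule R C(H, M) where
  carrier := {c | ∃ m, ∀ g ∈ I, c g = A g m - m}
  add_mem' := fun {a b} ⟨v, hv⟩ ⟨w, hw⟩ => ⟨v + w, fun g hg => by
    rw [ContinuousMap.add_apply, hv g hg, hw g hg, map_add]; abel⟩
  zero_mem' := ⟨0, fun _ _ => by simp⟩
  smul_mem' := fun r a ⟨v, hv⟩ => ⟨r • v, fun g hg => by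
    rw [ContinuousMap.smul_apply, hv g hg, map_smul, smul_sub]⟩

/-- The classes modulo coboundaries of a module `Z` of cocycles. -/
def H1 (A : H → M →ₗ[R] M) (Z : Submodule R C(H, M)) : ModuleCat R :=
  ModuleCat.of R (Z ⧸ (CobOn A Set.univ).submoduleOf Z)

/-- Restriction of cochains to a subgroup `D`, followed by a continuous linear map `π`. -/
def resC (D : Subgroup H) (π : M →L[R] M') : C(H, M) →ₗ[R] C(D, M') where
  toFun c := ⟨fun g => π (c g), π.continuous.comp (c.continuous.comp continuous_subtype_val)⟩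
  map_add' _ _ := ContinuousMap.ext fun _ => map_add π _ _
  map_smul' _ _ := ContinuousMap.ext fun _ => map_smul π _ _

theorem resC_mem {A : H → M →ₗ[R] M} {Z : Submodule R C(H, M)} (hZ : Z ≤ Cocyc A)
    {D : Subgroup H} {A' : D → M' →ₗ[R] M'} {π : M →L[R] M'}
    (h : ∀ (g : D) m, π (A g m) = A' g (π m)) : ∀ c ∈ Z, resC D π c ∈ Cocyc A' :=
  fun _ hc g k => (congrArg π (hZ hc g k)).trans ((map_add π _ _).trans (congrArg _ (h g _)))

theorem resC_cob {A : H → M →ₗ[R] M} {Z : Submodule R C(H, M)} (hZ : Z ≤ Cocyc A)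
    {D : Subgroup H} {A' : D → M' →ₗ[R] M'} {π : M →L[R] M'}
    (h : ∀ (g : D) m, π (A g m) = A' g (π m)) :
    (CobOn A Set.univ).submoduleOf Z ≤ ((CobOn A' Set.univ).submoduleOf (Cocyc A')).comap
      ((resC D π).restrict (resC_mem hZ h)) :=
  fun _ ⟨m, hm⟩ => ⟨π m, fun g _ =>
    (congrArg π (hm g trivial)).trans ((map_sub π _ _).trans (congrArg (· - π m) (h g m)))⟩

/-- The map on classes induced by restriction to `D` and an equivariant map `π`. -/
def resH {A : H → M →ₗ[R] M} {Z : Submodule R C(H, M)} (hZ : Z ≤ Cocyc A)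
    {D : Subgroup H} {A' : D → M' →ₗ[R] M'} (π : M →L[R] M')
    (h : ∀ (g : D) m, π (A g m) = A' g (π m)) : H1 A Z ⟶ H1 A' (Cocyc A') :=
  ModuleCat.ofHom (Submodule.mapQ _ _ ((resC D π).restrict (resC_mem hZ h)) (resC_cob hZ h))

/-- Cocycles of the absolute Galois group of `ℚ` whose class is unramified at the primes outside
`S`: they are coboundaries on the inertia groups at these primes. -/
def UnrOut (A : Gal(AlgebraicClosure ℚ/ℚ) → M →ₗ[R] M) (S : Set ℕ) :
    Submodule R C(Gal(AlgebraicClosure ℚ/ℚ), M) :=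
  Cocyc A ⊓ ⨅ (l : ℕ) (_ : l.Prime ∧ l ∉ S) (W : ValuationSubring (AlgebraicClosure ℚ))
    (_ : Above W l), CobOn A ((W.inertiaSubgroup ℚ).map (W.decompositionSubgroup ℚ).subtype)

theorem unrOut_le (A : Gal(AlgebraicClosure ℚ/ℚ) → M →ₗ[R] M) (S : Set ℕ) :
    UnrOut A S ≤ Cocyc A := inf_le_left

/-- Localisation of global classes at the place `V`, followed by an equivariant map `π`. -/
def resU {A : Gal(AlgebraicClosure ℚ/ℚ) → M →ₗ[R] M} (S : Set ℕ)
    {V : ValuationSubring (AlgebraicClosure ℚ)} {A' : V.decompositionSubgroup ℚ → M' →ₗ[R] M'}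
    (π : M →L[R] M') (h : ∀ (g : V.decompositionSubgroup ℚ) m, π (A g m) = A' g (π m)) :
    H1 A (UnrOut A S) ⟶ H1 A' (Cocyc A') :=
  resH (unrOut_le A S) π h

end Cohomology

section Invariant

variable {R K : Type} [CommRing R] [Field K]

/-- For `a` a non-zero-divisor of `R`: the fraction `b / a` has neither a zero nor a pole at the
point `κ`, that is `b / a = b' / a'` with `a'`, `b'` both non-zero at `κ`. -/
def NoZeroNoPole (κ : R →+* K) (a b : R) : Prop :=
  ∃ a' b', κ a' ≠ 0 ∧ κ b' ≠ 0 ∧ b * a' = a * b'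

/-- After inverting `π`: for every `z` in `N`, all generators `e₀`, `e₁` of `N₀`, `N₁` and all
coordinates `a`, `b` of the images of `z`, with `a` a non-zero-divisor, `b / a` has a zero or a pole
at `κ`. -/
def ZeroOrPole (π : R) (κ : Localization.Away π →+* K) {N N₀ N₁ : ModuleCat.{0} R}
    (l₀ : N ⟶ N₀) (l₁ : N ⟶ N₁) : Prop :=
  ∀ (z : LocalizedModule (Submonoid.powers π) N) (e₀ : LocalizedModule (Submonoid.powers π) N₀)
    (e₁ : LocalizedModule (Submonoid.powers π) N₁) (a b : Localization.Away π),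
    Submodule.span (Localization.Away π) {e₀} = ⊤ → Submodule.span (Localization.Away π) {e₁} = ⊤ →
    LocalizedModule.map (Submonoid.powers π) l₀.hom z = a • e₀ →
    LocalizedModule.map (Submonoid.powers π) l₁.hom z = b • e₁ →
    a ∈ nonZeroDivisors (Localization.Away π) → ¬ NoZeroNoPole κ a b

end Invariant

variable (p : ℕ) [Fact p.Prime]

/-- The `p`-adic cyclotomic character. It identifies `Γ = Gal(ℚ(μ_{p^∞})/ℚ)` with `ℤ_[p]ˣ`. -/
def chi : Gal(AlgebraicClosure ℚ/ℚ) →* ℤ_[p]ˣ :=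
  (cyclotomicCharacter (AlgebraicClosure ℚ) p).comp
    (MulSemiringAction.toRingAut Gal(AlgebraicClosure ℚ/ℚ) (AlgebraicClosure ℚ))

/-- `Λ_n = (ℤ/p^n)[Γ_n]`, `Γ_n = Gal(ℚ(μ_{p^n})/ℚ) = (ℤ/p^n)ˣ`. -/
def LevAlg (n : ℕ) : CommRingCat := CommRingCat.of (MonoidAlgebra (ZMod (p ^ n)) (ZMod (p ^ n))ˣ)

/-- Reduction `ℤ/p^(n+1) → ℤ/p^n`. -/
def red (n : ℕ) : ZMod (p ^ (n + 1)) →+* ZMod (p ^ n) :=
  ZMod.castHom (pow_dvd_pow p (Nat.le_succ n)) (ZMod (p ^ n))

/-- The transition map `Λ_(n+1) → Λ_n`, `c[γ] ↦ (c mod p^n)[γ mod p^n]`. -/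
def trans (n : ℕ) : MonoidAlgebra (ZMod (p ^ (n + 1))) (ZMod (p ^ (n + 1)))ˣ →+*
    MonoidAlgebra (ZMod (p ^ n)) (ZMod (p ^ n))ˣ :=
  MonoidAlgebra.liftNCRingHom (MonoidAlgebra.singleOneRingHom.comp (red p n))
    ((MonoidAlgebra.of (ZMod (p ^ n)) (ZMod (p ^ n))ˣ).comp (Units.map (red p n).toMonoidHom))
    (fun _ _ => Commute.all _ _)

/-- The ring of compatible families in `∏ Λ_n`. -/
def LamSub : Subring (∀ n, LevAlg p n) where
  carrier := {x | ∀ n, trans p n (x (n + 1)) = x n}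
  mul_mem' := fun ha hb n => (map_mul _ _ _).trans (congrArg₂ (· * ·) (ha n) (hb n))
  one_mem' := fun _ => map_one _
  add_mem' := fun ha hb n => (map_add _ _ _).trans (congrArg₂ (· + ·) (ha n) (hb n))
  zero_mem' := fun _ => map_zero _
  neg_mem' := fun ha n => (map_neg _ _).trans (congrArg (- ·) (ha n))

/-- The inverse limit topology (each `Λ_n` discrete). -/
@[instance_reducible] def lamTop : TopologicalSpace (LamSub p) :=
  ⨅ n, TopologicalSpace.induced (fun x => x.1 n) ⊥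

theorem lamTop_ring : @IsTopologicalRing (LamSub p) (lamTop p) _ := by
  let _ := lamTop p
  have key : ∀ {X : Type} [TopologicalSpace X] (F : X → LamSub p),
      Continuous F ↔ ∀ n, @Continuous _ _ _ ⊥ (fun x => (F x).1 n) := by
    intro X _ F
    exact continuous_iInf_rng.trans (forall_congr' fun n => continuous_induced_rng (t₂ := ⊥))
  have hp : ∀ n, @Continuous _ _ _ ⊥ (fun x : LamSub p => x.1 n) := (key id).1 continuous_id
  have two : ∀ (op : LamSub p → LamSub p → LamSub p)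
      (opn : ∀ n, LevAlg p n → LevAlg p n → LevAlg p n),
      (∀ n x y, (op x y).1 n = opn n (x.1 n) (y.1 n)) →
      Continuous (fun z : LamSub p × LamSub p => op z.1 z.2) := by
    intro op opn h
    refine (key _).2 fun n => ?_
    let _ : TopologicalSpace (LevAlg p n) := ⊥
    have _ : DiscreteTopology (LevAlg p n) := ⟨rfl⟩
    simp only [h]
    exact (continuous_of_discreteTopology (f := fun z : LevAlg p n × LevAlg p n => opn n z.1 z.2)).comp
      (((hp n).comp continuous_fst).prodMk ((hp n).comp continuous_snd))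
  have hneg : Continuous (fun x : LamSub p => -x) :=
    (two (fun x _ => -x) (fun _ x _ => -x) (fun n x _ => rfl)).comp
      (continuous_id.prodMk continuous_id)
  exact
    { continuous_add := two (· + ·) (fun _ => (· + ·)) (fun n x y => rfl)
      continuous_mul := two (· * ·) (fun _ => (· * ·)) (fun n x y => rfl)
      continuous_neg := hneg }

/-- The Iwasawa algebra `Λ = ℤ_p[[Γ]] = lim Λ_n` as a topological ring. -/
def IwAlg : TopCommRingCat := @TopCommRingCat.of (LamSub p) _ (lamTop p) (lamTop_ring p)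

/-- The projection `Λ → Λ_n`. -/
def proj (n : ℕ) : IwAlg p →+* MonoidAlgebra (ZMod (p ^ n)) (ZMod (p ^ n))ˣ :=
  (Pi.evalRingHom (fun n => LevAlg p n) n).comp (LamSub p).subtype

theorem trans_single (n : ℕ) (γ : (ZMod (p ^ (n + 1)))ˣ) (c : ZMod (p ^ (n + 1))) :
    trans p n (MonoidAlgebra.single γ c) =
      MonoidAlgebra.single (Units.map (red p n).toMonoidHom γ) (red p n c) := by
  simp [trans, MonoidAlgebra.liftNCRingHom, MonoidAlgebra.single_mul_single]

theorem red_toZModPow (n : ℕ) (x : ℤ_[p]) :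
    red p n (PadicInt.toZModPow (n + 1) x) = PadicInt.toZModPow n x :=
  RingHom.congr_fun (PadicInt.zmod_cast_comp_toZModPow n (n + 1) (Nat.le_succ n)) x

/-- Constants `ℤ_p → Λ`. -/
def cst : ℤ_[p] →+* IwAlg p :=
  RingHom.codRestrict
    (RingHom.pi fun n => (MonoidAlgebra.singleOneRingHom.comp (PadicInt.toZModPow n) :
      ℤ_[p] →+* MonoidAlgebra (ZMod (p ^ n)) (ZMod (p ^ n))ˣ)) (LamSub p) (fun x n => by
        change trans p n (MonoidAlgebra.single 1 (PadicInt.toZModPow (n + 1) x)) =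
          MonoidAlgebra.single 1 (PadicInt.toZModPow n x)
        rw [trans_single, map_one, red_toZModPow])

/-- Group-like elements `Γ = ℤ_pˣ → Λ`, `γ ↦ [γ]`. -/
def grp : ℤ_[p]ˣ →* IwAlg p :=
  MonoidHom.codRestrict
    (MonoidHom.pi fun n => ((MonoidAlgebra.of (ZMod (p ^ n)) (ZMod (p ^ n))ˣ).comp
      (Units.map (PadicInt.toZModPow n).toMonoidHom) :
        ℤ_[p]ˣ →* MonoidAlgebra (ZMod (p ^ n)) (ZMod (p ^ n))ˣ))
    (LamSub p).toSubmonoid (fun x n => by
      change trans p n (MonoidAlgebra.single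
          (Units.map (PadicInt.toZModPow (n + 1)).toMonoidHom x) 1) =
        MonoidAlgebra.single (Units.map (PadicInt.toZModPow n).toMonoidHom x) 1
      rw [trans_single, map_one]
      congr 1
      ext
      exact red_toZModPow p n _)

/-- Evaluation of `Λ_n` at the character `χ^(-j)`: `c[γ] ↦ c γ^(-j)`. -/
def evalN (j : ℤ) (n : ℕ) : MonoidAlgebra (ZMod (p ^ n)) (ZMod (p ^ n))ˣ →+* ZMod (p ^ n) :=
  MonoidAlgebra.liftNCRingHom (RingHom.id _)
    ((Units.coeHom _).comp (zpowGroupHom (-j))) (fun _ _ => Commute.all _ _)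

theorem evalN_single (j : ℤ) (n : ℕ) (γ : (ZMod (p ^ n))ˣ) (c : ZMod (p ^ n)) :
    evalN p j n (MonoidAlgebra.single γ c) = c * ((γ ^ (-j) : (ZMod (p ^ n))ˣ) : ZMod (p ^ n)) := by
  simp [evalN, MonoidAlgebra.liftNCRingHom]

theorem red_evalN (j : ℤ) (n : ℕ)
    (x : MonoidAlgebra (ZMod (p ^ (n + 1))) (ZMod (p ^ (n + 1)))ˣ) :
    red p n (evalN p j (n + 1) x) = evalN p j n (trans p n x) := by
  induction x using MonoidAlgebra.induction_linear with
  | zero => simp
  | add a b ha hb => simp only [map_add, ha, hb]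
  | single γ c =>
    rw [trans_single, evalN_single, evalN_single, map_mul, ← map_zpow]
    rfl

theorem eval_compat (j : ℤ) (k1 k2 : ℕ) (hk : k1 ≤ k2) :
    (ZMod.castHom (pow_dvd_pow p hk) (ZMod (p ^ k1))).comp ((evalN p j k2).comp (proj p k2)) =
      (evalN p j k1).comp (proj p k1) := by
  induction k2, hk using Nat.le_induction with
  | base => rw [ZMod.castHom_self, RingHom.id_comp]
  | succ n hn ih =>
    rw [← ih]
    ext x
    have h1 : proj p n x = trans p n (proj p (n + 1) x) := (x.2 n).symm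
    simp only [RingHom.comp_apply]
    rw [h1, ← red_evalN, red]
    exact (RingHom.congr_fun (ZMod.castHom_comp (pow_dvd_pow p hn) _) _).symm

/-- Evaluation `Λ → ℤ_p` at the character `χ^(-j)` of `Γ`. -/
def eval (j : ℤ) : IwAlg p →+* ℤ_[p] :=
  PadicInt.lift (f := fun n => (evalN p j n).comp (proj p n)) (eval_compat p j)

/-- Evaluation `Λ_E = Λ[1/p] → ℚ_p` at the character `χ^(-j)`. -/
def evalE (j : ℤ) : Localization.Away (p : IwAlg p) →+* ℚ_[p] :=
  Localization.awayLift (PadicInt.Coe.ringHom.comp (eval p j)) (p : IwAlg p) (by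
    rw [map_natCast]
    exact IsUnit.mk0 _ (Nat.cast_ne_zero.mpr (Fact.out : p.Prime).ne_zero))

variable {p}

/-- `ρ` restricted to the decomposition group at `V` is `δ 0 ⊕ δ 1`. -/
def SplitsAs (ρ : Gal(AlgebraicClosure ℚ/ℚ) →* GL (Fin 2) ℤ_[p])
    (V : ValuationSubring (AlgebraicClosure ℚ))
    (δ : Fin 2 → (V.decompositionSubgroup ℚ →* ℤ_[p]ˣ)) : Prop :=
  ∀ g : V.decompositionSubgroup ℚ,
    (ρ g : Matrix (Fin 2) (Fin 2) ℤ_[p]) = Matrix.diagonal fun i => (δ i g : ℤ_[p])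

section Coefficients

variable {R : Type} [CommRing R] (c : ℤ_[p] →+* R) (s : Gal(AlgebraicClosure ℚ/ℚ) → R)

/-- `T ⊗ R` for `T = ℤ_p²`, twisted by `s`: `g` acts by `s(g) ρ(g)`. -/
def act2 (ρ : Gal(AlgebraicClosure ℚ/ℚ) →* GL (Fin 2) ℤ_[p]) (g : Gal(AlgebraicClosure ℚ/ℚ)) :
    (Fin 2 → R) →ₗ[R] (Fin 2 → R) :=
  s g • Matrix.mulVecLin ((ρ g : Matrix (Fin 2) (Fin 2) ℤ_[p]).map c)

/-- `ℤ_p(δ) ⊗ R` for a character `δ` of the decomposition group, twisted by `s`: `g` acts by
`s(g) δ(g)`. -/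
def act1 (V : ValuationSubring (AlgebraicClosure ℚ)) (δ : V.decompositionSubgroup ℚ →* ℤ_[p]ˣ)
    (g : V.decompositionSubgroup ℚ) : R →ₗ[R] R :=
  (s g * c (δ g)) • LinearMap.id

variable [TopologicalSpace R] [IsTopologicalRing R]

theorem act_split {ρ : Gal(AlgebraicClosure ℚ/ℚ) →* GL (Fin 2) ℤ_[p]}
    {V : ValuationSubring (AlgebraicClosure ℚ)}
    {δ : Fin 2 → (V.decompositionSubgroup ℚ →* ℤ_[p]ˣ)} (h : SplitsAs ρ V δ) (i : Fin 2)
    (g : V.decompositionSubgroup ℚ) (m : Fin 2 → R) :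
    ContinuousLinearMap.proj (R := R) (φ := fun _ => R) i (act2 c s ρ g m) =
      act1 c s V (δ i) g (ContinuousLinearMap.proj (R := R) (φ := fun _ => R) i m) := by
  simp only [act2, act1, h g, LinearMap.smul_apply, Matrix.mulVecLin_apply, Pi.smul_apply,
    LinearMap.id_apply, smul_eq_mul, Matrix.diagonal_map (map_zero _), Matrix.mulVec_diagonal,
    mul_assoc, ContinuousLinearMap.proj_apply]

/-- Global classes with values in `T ⊗ R` twisted by `s`, unramified outside `S` (and `∞`). -/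
def HG (ρ : Gal(AlgebraicClosure ℚ/ℚ) →* GL (Fin 2) ℤ_[p]) (S : Set ℕ) : ModuleCat R :=
  H1 (act2 c s ρ) (UnrOut (act2 c s ρ) S)

/-- Local classes `H¹(ℚ_p, ℤ_p(δ) ⊗ R)` twisted by `s`. -/
def HL (V : ValuationSubring (AlgebraicClosure ℚ)) (δ : V.decompositionSubgroup ℚ →* ℤ_[p]ˣ) :
    ModuleCat R :=
  H1 (act1 c s V δ) (Cocyc (act1 c s V δ))

/-- Localisation at `V`, component `i`. -/
def locAt {ρ : Gal(AlgebraicClosure ℚ/ℚ) →* GL (Fin 2) ℤ_[p]}
    {V : ValuationSubring (AlgebraicClosure ℚ)}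
    {δ : Fin 2 → (V.decompositionSubgroup ℚ →* ℤ_[p]ˣ)} (h : SplitsAs ρ V δ) (S : Set ℕ)
    (i : Fin 2) : HG c s ρ S ⟶ HL c s V (δ i) :=
  resU S (ContinuousLinearMap.proj i) (act_split c s h i)

end Coefficients

variable (p) in
/-- The tautological character `g ↦ [χ g]⁻¹` that defines `Λ^ι`. -/
def taut (g : Gal(AlgebraicClosure ℚ/ℚ)) : IwAlg p := grp p (chi p g)⁻¹

variable (p) in
/-- The character `χ^j` with values in `ℚ_p`. -/
def chiPow (j : ℤ) (g : Gal(AlgebraicClosure ℚ/ℚ)) : ℚ_[p] :=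
  ((chi p g ^ j : ℤ_[p]ˣ) : ℤ_[p])

/-- The critical invariant `b / a` has a zero or a pole at `χ^(-j)`. Here
`H¹_Iw(V) = H¹(G_{ℚ,S}, T ⊗ Λ^ι)[1/p]` and likewise for the two local modules. -/
def IwZeroOrPole {ρ : Gal(AlgebraicClosure ℚ/ℚ) →* GL (Fin 2) ℤ_[p]}
    {V : ValuationSubring (AlgebraicClosure ℚ)}
    {δ : Fin 2 → (V.decompositionSubgroup ℚ →* ℤ_[p]ˣ)} (h : SplitsAs ρ V δ) (S : Set ℕ)
    (j : ℤ) : Prop :=
  ZeroOrPole (p : IwAlg p) (evalE p j) (locAt (cst p) (taut p) h S 0) (locAt (cst p) (taut p) h S 1)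

/-- The character `δ` of the decomposition group at `V` (above `p`) is unramified and geometric
Frobenius acts by `u`. -/
def UnramWith (V : ValuationSubring (AlgebraicClosure ℚ))
    (δ : V.decompositionSubgroup ℚ →* ℤ_[p]ˣ) (u : ℤ_[p]) : Prop :=
  (∀ g ∈ V.inertiaSubgroup ℚ, δ g = 1) ∧
    ∀ g : V.decompositionSubgroup ℚ, IsFrob V p g → (δ g⁻¹ : ℤ_[p]) = u

section Modular

open UpperHalfPlane CongruenceSubgroup

/-- The Fourier coefficient `a_n(f)`. -/
def coef (f : ℍ → ℂ) (n : ℕ) : ℂ := (qExpansion 1 f).coeff n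

/-- `T_l f = c f` in weight `k` and level `N` (trivial character), on Fourier coefficients. -/
def HeckeEigen (N : ℕ) (k : ℤ) (f : ℍ → ℂ) (l : ℕ) (c : ℂ) : Prop :=
  ∀ n : ℕ, coef f (l * n) + (if ¬ l ∣ N ∧ l ∣ n then (l : ℂ) ^ (k - 1) * coef f (n / l) else 0) =
    c * coef f n

/-- `f` is a newform of level `N`, weight `k` and trivial character: a normalised eigenform of all
Hecke operators whose eigenvalues away from `N` occur at no proper divisor of `N`. -/
def IsNewform (N : ℕ) (k : ℤ) (f : CuspForm (Gamma0 N) k) : Prop :=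
  coef f 1 = 1 ∧ (∀ l : ℕ, l.Prime → HeckeEigen N k f l (coef f l)) ∧
    ∀ M : ℕ, M ∣ N → M ≠ N → ∀ g : CuspForm (Gamma0 M) k,
      (∀ l : ℕ, l.Prime → ¬ l ∣ N → HeckeEigen M k g l (coef f l)) → g = 0

end Modular

/-- `ρ` is Deligne's representation for the eigenvalues `a` in weight `k`, level `N`: continuous,
unramified outside `N p`, and geometric Frobenius at `l` has characteristic polynomial
`X² - a_l X + l^(k-1)`. -/
def IsDeligne (N k : ℕ) (a : ℕ → ℤ) (ρ : Gal(AlgebraicClosure ℚ/ℚ) →* GL (Fin 2) ℤ_[p]) : Prop :=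
  Continuous ρ ∧ ∀ l : ℕ, l.Prime → ¬ l ∣ N * p → ∀ W : ValuationSubring (AlgebraicClosure ℚ),
    Above W l → (∀ g ∈ W.inertiaSubgroup ℚ, ρ g = 1) ∧
    ∀ g, IsFrob W l g → (ρ g⁻¹ : Matrix (Fin 2) (Fin 2) ℤ_[p]).charpoly =
      Polynomial.X ^ 2 - Polynomial.C (a l : ℤ_[p]) * Polynomial.X +
        Polynomial.C ((l : ℤ_[p]) ^ (k - 1))

/-- `f_α` is `θ`-critical at the place `V` above `p`: `α`, `β` are the roots of
`X² - a_p X + p^(k-1)`, `β` is a unit, `δ 1` is unramified with Frobenius eigenvalue `β` (weight `0`)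
and `δ 0` is `χ^(-(k-1))` times the unramified character with eigenvalue `α / p^(k-1)`. -/
def CriticalChars (k : ℕ) (ap : ℤ) (V : ValuationSubring (AlgebraicClosure ℚ))
    (δ : Fin 2 → (V.decompositionSubgroup ℚ →* ℤ_[p]ˣ)) (α β : ℤ_[p]) : Prop :=
  α + β = (ap : ℤ_[p]) ∧ α * β = (p : ℤ_[p]) ^ (k - 1) ∧ IsUnit β ∧ UnramWith V (δ 1) β ∧
    ∃ u : ℤ_[p], α = (p : ℤ_[p]) ^ (k - 1) * u ∧
      UnramWith V (δ 0 * ((chi p).comp (V.decompositionSubgroup ℚ).subtype) ^ (k - 1)) u

end Pool.Agent.MP_59efd2_nt
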