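import Pool.Agent.MP_59efd2_nt.Stmt

/-!
# MP_59efd2_nt : the positive form of the question at one character
-/

noncomputable section

namespace Pool.Agent.MP_59efd2_nt

open scoped MatrixGroups

/-- After inverting `π`: for every `z` in `N`, all generators `e₀`, `e₁` of `N₀`, `N₁` and all
coordinates `a`, `b` of the images of `z`, with `a` a non-zero-divisor, `b / a` has neither a zero
nor a pole at `κ`. -/
def RegularAt {R K : Type} [CommRing R] [Field K] (π : R) (κ : Localization.Away π →+* K)
    {N N₀ N₁ : ModuleCat.{0} R} (l₀ : N ⟶ N₀) (l₁ : N ⟶ N₁) : Prop :=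
  ∀ (z : LocalizedModule (Submonoid.powers π) N) (e₀ : LocalizedModule (Submonoid.powers π) N₀)
    (e₁ : LocalizedModule (Submonoid.powers π) N₁) (a b : Localization.Away π),
    Submodule.span (Localization.Away π) {e₀} = ⊤ → Submodule.span (Localization.Away π) {e₁} = ⊤ →
    LocalizedModule.map (Submonoid.powers π) l₀.hom z = a • e₀ →
    LocalizedModule.map (Submonoid.powers π) l₁.hom z = b • e₁ →
    a ∈ nonZeroDivisors (Localization.Away π) → NoZeroNoPole κ a b

/-- The critical invariant `b / a` has neither a zero nor a pole at `χ^(-j)`. -/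
def IwRegular {p : ℕ} [Fact p.Prime] {ρ : Gal(AlgebraicClosure ℚ/ℚ) →* GL (Fin 2) ℤ_[p]}
    {V : ValuationSubring (AlgebraicClosure ℚ)}
    {δ : Fin 2 → (V.decompositionSubgroup ℚ →* ℤ_[p]ˣ)} (h : SplitsAs ρ V δ) (S : Set ℕ)
    (j : ℤ) : Prop :=
  RegularAt (p : IwAlg p) (evalE p j) (locAt (cst p) (taut p) h S 0) (locAt (cst p) (taut p) h S 1)

end Pool.Agent.MP_59efd2_nt
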