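import Pool.Agent.MP_59efd2_nt.Stmt

/-!
# MP_59efd2_nt : the Selmer form of the critical invariant
-/

noncomputable section

namespace Pool.Agent.MP_59efd2_nt

open scoped MatrixGroups

/-- The targets `N₀`, `N₁` are lines and one of the two maps vanishes: `l₀` is zero, hence not an
isomorphism, or `l₁` is zero, hence the slope of the image of `N` in `N₀ ⊕ N₁` is zero. -/
def OneVanishes {K : Type} [Field K] {N N₀ N₁ : ModuleCat.{0} K} (l₀ : N ⟶ N₀) (l₁ : N ⟶ N₁) :
    Prop :=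
  Module.finrank K N₀ = 1 ∧ Module.finrank K N₁ = 1 ∧
    ((∀ z, l₀.hom z = 0) ∨ ∀ z, l₁.hom z = 0)

/-- The character `χ^j` with values in `ℚ_p`. -/
def chiQ (p : ℕ) [Fact p.Prime] (j : ℤ) (g : Gal(AlgebraicClosure ℚ/ℚ)) : ℚ_[p] :=
  PadicInt.Coe.ringHom (chi p g ^ j : ℤ_[p]ˣ)

/-- The invariant `L^cr(V(j))` is undefined or zero. The source of the two maps is the Selmer group
of `V(j)` with relaxed condition at `p` (classes unramified at all primes other than `p`), the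
targets are `H¹(ℚ_p, V_i(j))`. -/
def SelmerUndefinedOrZero {p : ℕ} [Fact p.Prime]
    {ρ : Gal(AlgebraicClosure ℚ/ℚ) →* GL (Fin 2) ℤ_[p]} {V : ValuationSubring (AlgebraicClosure ℚ)}
    {δ : Fin 2 → (V.decompositionSubgroup ℚ →* ℤ_[p]ˣ)} (h : SplitsAs ρ V δ) (j : ℤ) : Prop :=
  OneVanishes (locAt PadicInt.Coe.ringHom (chiQ p j) h {p} 0)
    (locAt PadicInt.Coe.ringHom (chiQ p j) h {p} 1)

end Pool.Agent.MP_59efd2_nt
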